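import Pool.Agent.N637.K21.Stm
import Pool.Agent.N891.QB.Desc
import Pool.Agent.N717.QB.Tor
import Pool.Agent.Y682.Rk
import Pool.Agent.TeamU.B1

/-!
# K21-RK: the 2-descent over a number field with the rank
-/

set_option autoImplicit false
set_option linter.unusedSectionVars false

namespace Pool.Agent.N966.K21

open WeierstrassCurve NumberField IsDedekindDomain

open Pool.Agent.TH841.SH (IsR IsX gf isX_zero isX_some not_isX)

open Pool.Agent.TH841.SH.D (Pt act Gal Coch IsCoc IsCob LocTriv cob)

open Pool.Agent.TH841.NF.D (Sha shaCoc IsShaCoc)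

open Pool.Agent.Y682 (MP inc inc_inj dl_inc exists_inc sm sm_inj act_sm sm_ne_zero pt_zero_or)

open Pool.Agent.N891.QB

section

variable {K : Type} [Field K] [NumberField K] {W : WeierstrassCurve K} {a b c : K}

lemma mem_H0_iff (P : Pt W (AlgebraicClosure K)) : P ∈ H0 W ↔ ∃ Q : MP W, inc W Q = P := by
  constructor
  · intro hP
    refine exists_inc ?_
    funext σ
    exact sub_eq_zero.2 (hP σ)
  · rintro ⟨Q, rfl⟩ σ
    exact sub_eq_zero.1 (congrFun (dl_inc Q) σ)

/-- the rational points are the fixed points -/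
noncomputable def toH0 (W : WeierstrassCurve K) : MP W →+ H0 W where
  toFun Q := ⟨inc W Q, (mem_H0_iff _).2 ⟨Q, rfl⟩⟩
  map_zero' := Subtype.ext (map_zero _)
  map_add' _ _ := Subtype.ext (map_add _ _ _)

lemma toH0_inj : Function.Injective (toH0 W) := fun P Q h => inc_inj W (congrArg Subtype.val h)

lemma toH0_surj : Function.Surjective (toH0 W) := by
  rintro ⟨P, hP⟩
  obtain ⟨Q, hQ⟩ := (mem_H0_iff P).1 hP
  exact ⟨Q, Subtype.ext hQ⟩

lemma sm_congr {L : Type} [Field L] [Algebra K L] {u v u' v' : L}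
    (h : (W.baseChange L).toAffine.Nonsingular u v)
    (h' : (W.baseChange L).toAffine.Nonsingular u' v') (e1 : u = u') (e2 : v = v') :
    sm (W := W) u v h = sm u' v' h' := by
  subst e1 e2
  rfl

/-- the points of order two are rational -/
lemma T2_le (h : IsR W a b c) {P : Pt W (AlgebraicClosure K)} (hP : P + P = 0) :
    P ∈ H0 W := by
  have hR := baseR h (AlgebraicClosure K)
  have key : ∀ (e : K) (hn : (W.baseChange (AlgebraicClosure K)).toAffine.Nonsingular
      (algebraMap K (AlgebraicClosure K) e) 0), sm (W := W) _ _ hn ∈ H0 W := by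
    intro e hn σ
    rw [act_sm]
    exact sm_congr _ _ (σ.commutes e) (map_zero σ)
  rcases @IsR.tors _ _ _ _ _ _ (Classical.decEq _) hR two_ne_zero _ hP with
    h | ⟨ha, h⟩ | ⟨hb, h⟩ | ⟨hc, h⟩
  · have : P = 0 := h
    rw [this]
    exact (H0 W).zero_mem
  · rw [show P = sm (W := W) _ _ ha from h]
    exact key a ha
  · rw [show P = sm (W := W) _ _ hb from h]
    exact key b hb
  · rw [show P = sm (W := W) _ _ hc from h]
    exact key c hc

/-- there are four rational points killed by two -/
lemma card_MP2 (h : IsR W a b c) (hd : Ds a b c) :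
    Nat.card (zsmulAddGroupHom (α := MP W) 2).ker = 4 := by
  rw [← card_T2 h hd]
  refine Nat.card_congr (Equiv.ofBijective (fun P : (zsmulAddGroupHom (α := MP W) 2).ker =>
    (⟨inc W P.1, ?_⟩ : T2 W)) ⟨?_, ?_⟩)
  · change inc W P.1 + inc W P.1 = 0
    have h : (2 : ℤ) • P.1 = 0 := P.2
    rw [← map_add, ← two_zsmul, h, map_zero]
  · intro P Q h
    have h1 : inc W P.1 = inc W Q.1 := congrArg Subtype.val h
    exact Subtype.ext (inc_inj W h1)
  · rintro ⟨P, hP⟩
    obtain ⟨Q, hQ⟩ := (mem_H0_iff P).1 (T2_le h hP)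
    refine ⟨⟨Q, ?_⟩, Subtype.ext hQ⟩
    change (2 : ℤ) • Q = 0
    apply inc_inj W
    rw [two_zsmul, map_add, hQ, map_zero]
    exact hP

/-- the coboundaries of the halves of the rational points -/
lemma card_dlt_range (h : IsR W a b c) (hd : Ds a b c) :
    Nat.card (dlt W).range =
      Nat.card (MP W ⧸ (zsmulAddGroupHom (α := MP W) 2).range) := by
  have hmem : ∀ P : H1 W, P ∈ (dlt W).ker ↔ P.1 ∈ H0 W := by
    intro P
    constructor
    · intro hP σ
      have h1 : dP W P.1 = 0 := congrArg Subtype.val hP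
      have h2 : act W σ.toAlgHom P.1 - P.1 = 0 := congrFun h1 σ
      exact sub_eq_zero.1 h2
    · intro hP
      rw [AddMonoidHom.mem_ker]
      refine Subtype.ext ?_
      funext σ
      change act W σ.toAlgHom P.1 - P.1 = 0
      rw [hP σ, sub_self]
  have hker : (dbl W).ker ≤ (dlt W).ker := by
    intro P hP
    rw [hmem]
    exact T2_le h (congrArg Subtype.val hP)
  have e1 : (dlt W).ker.index = ((dlt W).ker.map (dbl W)).index :=
    (AddSubgroup.index_map_eq _ (dbl_surj h hd) hker).symm
  have e2 : (((dlt W).ker.map (dbl W)).comap (toH0 W)).index =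
      ((dlt W).ker.map (dbl W)).index :=
    AddSubgroup.index_comap_of_surjective _ toH0_surj
  have e3 : ((dlt W).ker.map (dbl W)).comap (toH0 W) =
      (zsmulAddGroupHom (α := MP W) 2).range := by
    ext Q
    rw [AddSubgroup.mem_comap, AddSubgroup.mem_map, AddMonoidHom.mem_range]
    constructor
    · rintro ⟨P, hP, hPQ⟩
      obtain ⟨Q', hQ'⟩ := (mem_H0_iff P.1).1 ((hmem P).1 hP)
      refine ⟨Q', ?_⟩
      change (2 : ℤ) • Q' = Q
      apply inc_inj W
      have h1 : P.1 + P.1 = inc W Q := congrArg Subtype.val hPQ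
      rw [two_zsmul, map_add, hQ', h1]
    · rintro ⟨Q', hQ'⟩
      have h0 : inc W Q' ∈ H0 W := (mem_H0_iff _).2 ⟨Q', rfl⟩
      refine ⟨⟨inc W Q', (H0 W).add_mem h0 h0⟩, (hmem _).2 h0, Subtype.ext ?_⟩
      change inc W Q' + inc W Q' = inc W Q
      have h1 : (2 : ℤ) • Q' = Q := hQ'
      rw [← h1, two_zsmul, map_add]
  rw [← AddSubgroup.index_ker, e1, ← e2, e3]
  rfl

/-- **the order of the group of the elements of order two of `Ш`, with the rank** -/
theorem card_sha_rank (h : IsR W a b c) (hd : Ds a b c) [Module.Finite ℤ (MP W)]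
    [Finite (Z2 W)] :
    Finite {x : Sha W // 2 • x = 0} ∧
    Nat.card (Z2 W) = 2 ^ Module.finrank ℤ (MP W) *
      (4 * Nat.card {x : Sha W // 2 • x = 0}) := by
  have e0 : Nat.card {x : Sha W // 2 • x = 0} = Nat.card (toS W).range :=
    Nat.card_congr (Equiv.subtypeEquivRight (fun x => (toS_range h hd x).symm))
  have hfr : Finite (toS W).range :=
    Finite.of_surjective (toS W).rangeRestrict (AddMonoidHom.rangeRestrict_surjective _)
  refine ⟨Finite.of_equiv _ (Equiv.subtypeEquivRight (fun x => toS_range h hd x)), ?_⟩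
  have e1 : Nat.card (Z2 W) = Nat.card (toS W).range * Nat.card (toS W).ker := by
    rw [AddSubgroup.card_eq_card_quotient_mul_card_addSubgroup (toS W).ker]
    congr 1
    exact Nat.card_congr (QuotientAddGroup.quotientKerEquivRange (toS W)).toEquiv
  rw [e1, e0, toS_ker, card_dlt_range h hd, Pool.Agent.TeamU.card_quot_two (MP W),
    card_MP2 h hd]
  ring

end

/-- **K21-RK** -/
theorem t_RK : Pool.Agent.N637.K21.S_RK := by
  intro K _ _ W a b c hab hac hbc h S hS hS1 hS2
  have hab' : (a : K) ≠ b := by exact_mod_cast hab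
  have hac' : (a : K) ≠ c := by exact_mod_cast hac
  have hbc' : (b : K) ≠ c := by exact_mod_cast hbc
  have hd : Ds (a : K) (b : K) (c : K) := ⟨hab', hac', hbc'⟩
  have hfg := Pool.Agent.N717.QB.fg_of h hab' hac' hbc'
  have key : ∀ i j : DecidableEq K,
      @AddGroup.FG W.toAffine.Point (@Affine.Point.instAddCommGroup K _ W.toAffine i).toAddGroup →
      @AddGroup.FG W.toAffine.Point
        (@Affine.Point.instAddCommGroup K _ W.toAffine j).toAddGroup := by
    intro i j h
    rwa [Subsingleton.elim j i]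
  have hfin : Module.Finite ℤ (MP W) := by
    rw [Module.Finite.iff_addGroup_fg]
    exact key _ (Classical.decEq K) hfg
  obtain ⟨hz, hc⟩ := card_Z2 h hd S (fun z hz => (se_iff a b c z).1 (hS z hz)) hS1
    (fun z hz => hS2 z ((se_iff a b c z).2 hz))
  obtain ⟨h1, h2⟩ := card_sha_rank h hd
  refine ⟨?_, h1, ?_⟩
  · convert hfg
  · rw [← hc, h2]
    rfl

end Pool.Agent.N966.K21
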